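import Pool.Agent.Lib.MP_9cfc0a_nt.SE.D3

set_option autoImplicit false

/-! Shared definitions of the campaign SF (MP_9cfc0a: the constant 2/3 at every scale). -/

namespace Pool.Agent.SF

open Complex MeasureTheory
open Pool.Agent.SK Pool.Agent.SD Pool.Agent.SE
open Pool.Agent.SO (prim NN pt pz MM kw)

/-- Half of the length of the box. -/
noncomputable def BN (r N : ℕ) (U : ℝ) : ℝ := (N : ℝ) * VV r U

/-- Half of the length of the window. -/
noncomputable def VN (r N : ℕ) (U : ℝ) : ℝ := ((N : ℝ) + 1) * VV r U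

/-- The kernel with the box of half length `B`. -/
noncomputable def Eb (σ v B : ℝ) (m : ℕ) (ζ : ℂ) : ℂ := Ek σ v m ζ * shc ((B : ℂ) * ζ)

/-- The transform of the test function at the zero `1/2 + iγ`. -/
noncomputable def hb {r : ℕ} [NeZero r] (χ : DirichletCharacter ℂ r) (m : ℕ) (B U γ : ℝ) (z : ℂ) : ℂ :=
  hh χ m U γ z * shc ((B : ℂ) * (z - (γ : ℂ) * I))

/-- The test function at the zero `1/2 + iγ`. -/
noncomputable def hkb {r : ℕ} [NeZero r] (χ : DirichletCharacter ℂ r) (m : ℕ) (B U γ v : ℝ) : ℂ :=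
  (1 / (2 * Real.pi) : ℂ) * ∫ t : ℝ, hb χ m B U γ ((t : ℂ) * I) * Complex.exp ((t : ℂ) * v * I)

/-- The integrand of the pairing. -/
noncomputable def Phb {r : ℕ} [NeZero r] (χ : DirichletCharacter ℂ r) (m : ℕ) (B U γ : ℝ) (z : ℂ) : ℂ :=
  Ph χ m U γ z * shc ((B : ℂ) * (z - (γ : ℂ) * I))

open scoped Classical in
/-- The normalised transform on the line, minus the kernel near the zero (`|ξ - γ| ≤ a`). -/
noncomputable def rest {r : ℕ} [NeZero r] (χ : DirichletCharacter ℂ r) (m : ℕ) (B U γ a ξ : ℝ) : ℂ :=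
  hb χ m B U γ ((ξ : ℂ) * I) / deriv χ.LFunction (1 / 2 + (γ : ℂ) * I) -
    if |ξ - γ| ≤ a then Eb (sg r U) (vl r m U) B m (((ξ - γ : ℝ) : ℂ) * I) else 0

/-- The lower end `max(1, X/Q)` of the window, `U = log X`. -/
noncomputable def loN (q N : ℕ) (U : ℝ) : ℝ := max 1 (Real.exp (U - ((N : ℝ) + 1) * (1000 * Real.log (q * U))))

/-- The upper end `XQ`. -/
noncomputable def upN (q N : ℕ) (U : ℝ) : ℝ := Real.exp (U + ((N : ℝ) + 1) * (1000 * Real.log (q * U)))

/-- The logarithmic length of the window. -/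
noncomputable def lenN (q N : ℕ) (U : ℝ) : ℝ := Real.log (upN q N U) - Real.log (loN q N U)

end Pool.Agent.SF
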