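import Pool.Agent.Lib.MP_9cfc0a_nt.Mg.G058
import Pool.Agent.Lib.MP_9cfc0a_nt.Mg.G049
import Pool.Agent.Lib.MP_9cfc0a_nt.Mg.G015

set_option autoImplicit false

/-! Task F8: continuity and Plancherel for the test functions. -/

namespace Pool.Agent.SF

open Complex MeasureTheory
open Pool.Agent.SK Pool.Agent.SD Pool.Agent.SE
open Pool.Agent.SO (prim NN pt pz MM kw)

theorem F8_bd (r : ℕ) [NeZero r] (hr : 2 ≤ r) (χ : DirichletCharacter ℂ r) (hχ : χ ∈ prim r) (m : ℕ) (B U γ : ℝ)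
    (hσ : 0 < sg r U) (hv : 0 ≤ vl r m U) (h0 : χ.LFunction (1 / 2 + (γ : ℂ) * I) = 0) :
    ∃ K η : ℝ, 0 ≤ K ∧ 0 < η ∧ ∀ t : ℝ, ‖hb χ m B U γ ((t : ℂ) * I)‖ ≤ K * Real.exp (-η * t ^ 2) := by
  obtain ⟨K, η, hK, hη, h⟩ := hb_strip r hr χ hχ m B U γ hσ hv h0 0 0
  refine ⟨K, η, hK, hη, fun t => ?_⟩
  have h1 := h ((t : ℂ) * I) (by simp) (by simp)
  have h2 : ((t : ℂ) * I).im = t := by simp
  rw [h2] at h1
  rw [neg_mul]
  exact h1

theorem F8_cont (r : ℕ) [NeZero r] (hr : 2 ≤ r) (χ : DirichletCharacter ℂ r) (hχ : χ ∈ prim r) (m : ℕ) (B U γ : ℝ) :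
    Continuous (fun t : ℝ => hb χ m B U γ ((t : ℂ) * I)) := by
  have h1 := (hb_diff r hr χ hχ m B U γ).continuous
  exact h1.comp (by fun_prop)

theorem F8_int (r : ℕ) [NeZero r] (hr : 2 ≤ r) (χ : DirichletCharacter ℂ r) (hχ : χ ∈ prim r) (m : ℕ) (B U γ : ℝ)
    (hσ : 0 < sg r U) (hv : 0 ≤ vl r m U) (h0 : χ.LFunction (1 / 2 + (γ : ℂ) * I) = 0) :
    Integrable (fun t : ℝ => hb χ m B U γ ((t : ℂ) * I)) := by
  obtain ⟨K, η, hK, hη, h⟩ := F8_bd r hr χ hχ m B U γ hσ hv h0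
  exact ((integrable_exp_neg_mul_sq hη).const_mul K).mono'
    (F8_cont r hr χ hχ m B U γ).aestronglyMeasurable (Filter.Eventually.of_forall h)

/-- F8a. As `hk_cont` in SE/A10.lean. -/
theorem hkb_cont (r : ℕ) [NeZero r] (hr : 2 ≤ r) (χ : DirichletCharacter ℂ r) (hχ : χ ∈ prim r) (m : ℕ) (B U γ : ℝ)
    (hσ : 0 < sg r U) (hv : 0 ≤ vl r m U) (h0 : χ.LFunction (1 / 2 + (γ : ℂ) * I) = 0) : Continuous (hkb χ m B U γ) := by
  have hc := F8_cont r hr χ hχ m B U γ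
  have h1 : Continuous (fun v : ℝ => ∫ t : ℝ, hb χ m B U γ ((t : ℂ) * I) * Complex.exp ((t : ℂ) * v * I)) := by
    refine MeasureTheory.continuous_of_dominated (bound := fun t => ‖hb χ m B U γ ((t : ℂ) * I)‖) ?_ ?_ ?_ ?_
    · intro v
      exact (hc.mul (by fun_prop)).aestronglyMeasurable
    · intro v
      refine Filter.Eventually.of_forall fun t => ?_
      rw [norm_mul, A10_norm_exp, mul_one]
    · exact (F8_int r hr χ hχ m B U γ hσ hv h0).norm
    · refine Filter.Eventually.of_forall fun t => ?_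
      fun_prop
  have h2 : hkb χ m B U γ = fun v : ℝ => (1 / (2 * Real.pi) : ℂ) *
      ∫ t : ℝ, hb χ m B U γ ((t : ℂ) * I) * Complex.exp ((t : ℂ) * v * I) := by
    funext v; rfl
  rw [h2]
  exact continuous_const.mul h1

/-- F8b. As `plancherel_hk` in SE/A10.lean (COPY), but keep the constant `1/(2π)`. -/
theorem plancherel_hkb (r : ℕ) [NeZero r] (hr : 2 ≤ r) (χ : DirichletCharacter ℂ r) (hχ : χ ∈ prim r) (m : ℕ) (B U V : ℝ)
    (hV : 0 ≤ V) (hσ : 0 < sg r U) (hv : 0 ≤ vl r m U) (J : Finset ℂ)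
    (h0 : ∀ w ∈ J, χ.LFunction (1 / 2 + (w.im : ℂ) * I) = 0) (c : ℂ → ℂ) :
    Integrable (fun t : ℝ => ‖∑ w ∈ J, c w * hb χ m B U w.im ((t : ℂ) * I)‖ ^ 2) ∧
    ∫ v in (-V)..V, ‖∑ w ∈ J, c w * hkb χ m B U w.im v‖ ^ 2 ≤
      1 / (2 * Real.pi) * ∫ t : ℝ, ‖∑ w ∈ J, c w * hb χ m B U w.im ((t : ℂ) * I)‖ ^ 2 := by
  set g : ℝ → ℂ := fun t => ∑ w ∈ J, c w * hb χ m B U w.im ((t : ℂ) * I) with hg
  have hgc : Continuous g := by
    rw [hg]
    exact continuous_finsetSum _ fun w _ => continuous_const.mul (F8_cont r hr χ hχ m B U w.im)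
  have hgi : Integrable g := by
    rw [hg]
    exact integrable_finsetSum _ fun w hw => (F8_int r hr χ hχ m B U w.im hσ hv (h0 w hw)).const_mul (c w)
  -- a bound
  have hB : ∃ A : ℝ, 0 ≤ A ∧ ∀ t, ‖g t‖ ≤ A := by
    have h1 : ∀ w : ℂ, ∃ K : ℝ, 0 ≤ K ∧ (w ∈ J → ∀ t : ℝ, ‖hb χ m B U w.im ((t : ℂ) * I)‖ ≤ K) := by
      intro w
      by_cases hw : w ∈ J
      · obtain ⟨K, η, hK, hη, h⟩ := F8_bd r hr χ hχ m B U w.im hσ hv (h0 w hw)
        refine ⟨K, hK, fun _ t => (h t).trans ?_⟩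
        have h2 : Real.exp (-η * t ^ 2) ≤ 1 := by
          rw [Real.exp_le_one_iff]
          have : 0 ≤ η * t ^ 2 := by positivity
          linarith
        calc K * Real.exp (-η * t ^ 2) ≤ K * 1 := mul_le_mul_of_nonneg_left h2 hK
          _ = K := mul_one K
      · exact ⟨0, le_refl 0, fun h => absurd h hw⟩
    choose K hK0 hK using h1
    refine ⟨∑ w ∈ J, ‖c w‖ * K w, Finset.sum_nonneg fun w _ => mul_nonneg (norm_nonneg _) (hK0 w), fun t => ?_⟩
    rw [hg]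
    refine (norm_sum_le _ _).trans (Finset.sum_le_sum fun w hw => ?_)
    rw [norm_mul]
    exact mul_le_mul_of_nonneg_left (hK w hw t) (norm_nonneg _)
  obtain ⟨A, hA0, hA⟩ := hB
  have hg2 : Integrable (fun t => ‖g t‖ ^ 2) := by
    refine (hgi.norm.const_mul A).mono' (hgc.norm.pow 2).aestronglyMeasurable
      (Filter.Eventually.of_forall fun t => ?_)
    rw [Real.norm_eq_abs, abs_of_nonneg (by positivity), sq]
    exact mul_le_mul_of_nonneg_right (hA t) (norm_nonneg _)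
  refine ⟨hg2, ?_⟩
  obtain ⟨hP1, hP2⟩ := Pool.Agent.SK.E.plancherel g hgi hg2
  set G : ℝ → ℂ := fun t => ∫ u : ℝ, g u * Complex.exp (-((t : ℂ) * u * I)) with hG
  have hsum : ∀ v : ℝ, ∑ w ∈ J, c w * hkb χ m B U w.im v = (1 / (2 * Real.pi) : ℂ) * G (-v) := by
    intro v
    have h1 : G (-v) = ∑ w ∈ J, c w * ∫ t : ℝ, hb χ m B U w.im ((t : ℂ) * I) * Complex.exp ((t : ℂ) * v * I) := by
      rw [hG]
      have h2 : ∀ u : ℝ, g u * Complex.exp (-(((-v : ℝ) : ℂ) * u * I))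
          = ∑ w ∈ J, c w * (hb χ m B U w.im ((u : ℂ) * I) * Complex.exp ((u : ℂ) * v * I)) := by
        intro u
        rw [hg]
        simp only
        rw [Finset.sum_mul]
        refine Finset.sum_congr rfl fun w _ => ?_
        have h3 : -(((-v : ℝ) : ℂ) * u * I) = (u : ℂ) * v * I := by push_cast; ring
        rw [h3, mul_assoc]
      simp only [h2]
      rw [integral_finsetSum]
      · refine Finset.sum_congr rfl fun w _ => ?_
        exact integral_const_mul _ _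
      · intro w hw
        refine Integrable.const_mul ?_ _
        refine (F8_int r hr χ hχ m B U w.im hσ hv (h0 w hw)).norm.mono'
          ((F8_cont r hr χ hχ m B U w.im).mul (by fun_prop)).aestronglyMeasurable
          (Filter.Eventually.of_forall fun t => ?_)
        rw [norm_mul, A10_norm_exp, mul_one]
    rw [h1, Finset.mul_sum]
    refine Finset.sum_congr rfl fun w _ => ?_
    unfold hkb
    ring
  have hnorm : ∀ v : ℝ, ‖∑ w ∈ J, c w * hkb χ m B U w.im v‖ ^ 2 = (1 / (2 * Real.pi)) ^ 2 * ‖G (-v)‖ ^ 2 := by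
    intro v
    rw [hsum v, norm_mul, mul_pow]
    congr 2
    rw [norm_div, norm_one, norm_mul, Complex.norm_ofNat, Complex.norm_real, Real.norm_eq_abs,
      abs_of_pos Real.pi_pos]
  simp only [hnorm]
  have hGn : Integrable (fun v : ℝ => (1 / (2 * Real.pi)) ^ 2 * ‖G (-v)‖ ^ 2) :=
    (hP1.comp_neg).const_mul _
  rw [intervalIntegral.integral_of_le (by linarith)]
  refine (setIntegral_le_integral hGn (Filter.Eventually.of_forall fun v => by positivity)).trans ?_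
  rw [integral_const_mul, MeasureTheory.integral_neg_eq_self (fun v : ℝ => ‖G v‖ ^ 2), hP2]
  have h3 : (1 / (2 * Real.pi)) ^ 2 * (2 * Real.pi * ∫ u : ℝ, ‖g u‖ ^ 2) = (1 / (2 * Real.pi)) * ∫ u : ℝ, ‖g u‖ ^ 2 := by
    have : (2 * Real.pi : ℝ) ≠ 0 := by positivity
    field_simp
  exact h3.le

end Pool.Agent.SF
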