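import Pool.Agent.Lib.MP_9cfc0a_nt.Mg.G058
import Pool.Agent.Lib.MP_9cfc0a_nt.Mg.G063
import Pool.Agent.Lib.MP_9cfc0a_nt.SF.F8
import Pool.Agent.Lib.MP_9cfc0a_nt.Mg.G051

set_option autoImplicit false

/-! Task F7: the pairing in the window. -/

namespace Pool.Agent.SF

open Complex MeasureTheory
open Pool.Agent.SK Pool.Agent.SD Pool.Agent.SE
open Pool.Agent.SO (prim NN pt pz MM kw)

/-- F7. PROOF. As `pairing` in SE/A9.lean (COPY) with `pair_lineb`, `Phb_shift`, `Phb_left`, `hkb_bound`, `regimeN (2C) T m N`. The part `|v| > VN = BN + VV`: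
`‖ff(U-v)‖ ≤ C exp((U+|v|)/2)`, `‖hkb‖ ≤ exp(17U/2 + (16U/VV)(BN - |v|))`: the integral is at most `2C exp(9U) exp((16U/VV) BN) exp(-(16U/VV - 1/2) VN)/(16U/VV - 1/2) ≤
2C exp(9U - 16U + VN/2) ≤ 2C exp(-6U)` (`VN ≤ U/4`, `16U/VV ≥ 64`). -/
theorem pairingN (T : ℝ) (hT : 0 ≤ T) (m N : ℕ) (hm : 1 ≤ m) : ∃ r₀ : ℕ, 3 ≤ r₀ ∧ ∀ (r : ℕ) [NeZero r], r₀ ≤ r →
    ∀ χ ∈ prim r, ∀ γ : ℝ, |γ| ≤ T → χ.LFunction (1 / 2 + (γ : ℂ) * I) = 0 → ∀ U : ℝ, 8000 * ((N : ℝ) + 1) * Real.log r ≤ U →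
    ‖(∫ v in (-(VN r N U))..(VN r N U), ff χ (U - v) * hkb χ m (BN r N U) U γ v) +
      deriv χ.LFunction (1 / 2 + (γ : ℂ) * I) * Complex.exp ((U : ℂ) * ((γ : ℂ) * I)) / (1 / 2 + (γ : ℂ) * I)‖ ≤
      Real.exp (-(U / 20)) := by
  obtain ⟨C, hC1, hff⟩ := Pool.Agent.SE.ff_le
  obtain ⟨r1, hr1, H1⟩ := hkb_bound T hT m hm
  obtain ⟨r2, hr2, H2⟩ := Phb_left T hT m N hm
  obtain ⟨r3, hr3, H3⟩ := regime (2 * C) T (by linarith) hT m hm
  obtain ⟨r4, hr4, H4⟩ := regimeN (2 * C) T (by linarith) hT m N hm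
  refine ⟨max (max r1 r4) (max r2 r3), le_trans hr1 (le_trans (le_max_left _ _) (le_max_left _ _)), ?_⟩
  intro r _ hr χ hχ γ hγ h0 U hU
  have hra : r1 ≤ r := le_trans (le_trans (le_max_left _ _) (le_max_left _ _)) hr
  have hrd : r4 ≤ r := le_trans (le_trans (le_max_right _ _) (le_max_left _ _)) hr
  have hrb : r2 ≤ r := le_trans (le_trans (le_max_left _ _) (le_max_right _ _)) hr
  have hrc : r3 ≤ r := le_trans (le_trans (le_max_right _ _) (le_max_right _ _)) hr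
  obtain ⟨hU4, hVN, hB0, hVV, -, ⟨h6a, h6b⟩, -⟩ := H4 r hrd U hU
  obtain ⟨hV1, hVU, ⟨-, -, hσ, hv⟩, -, -, -, -, hU1⟩ := H3 r hrc U hU4
  have hkb0 := H1 r hra χ hχ γ hγ h0 U hU4 (BN r N U) hB0
  have hP := H2 r hrb χ hχ γ hγ U hU
  have hr2' : 2 ≤ r := by omega
  have hpl := pair_lineb r hr2' χ hχ m (BN r N U) U γ hσ hv.le h0
  have hps := Phb_shift r hr2' χ hχ m (BN r N U) U γ hσ hv.le
  have hkc := hkb_cont r hr2' χ hχ m (BN r N U) U γ hσ hv.le h0
  have hBV : VN r N U = BN r N U + VV r U := by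
    unfold VN BN; ring
  set V := VV r U with hVdef
  set B := BN r N U with hBdef
  set W := VN r N U with hWdef
  set E : ℂ := deriv χ.LFunction (1 / 2 + (γ : ℂ) * I) * Complex.exp ((U : ℂ) * ((γ : ℂ) * I)) / (1 / 2 + (γ : ℂ) * I) with hE
  have hV0 : 0 < V := by linarith
  have hU0 : 0 < U := by linarith
  have hVle : V ≤ U / 4 := by linarith
  have hx : 64 ≤ 16 * U / V := by
    rw [le_div_iff₀ hV0]; linarith
  have hFm : AEStronglyMeasurable (fun v : ℝ => ff χ (U - v) * hkb χ m B U γ v) volume := by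
    refine (Measurable.mul ((ff_meas r χ).comp (measurable_const.sub measurable_id)) hkc.measurable).aestronglyMeasurable
  have hF : ∀ v : ℝ, ‖ff χ (U - v) * hkb χ m B U γ v‖ ≤
      (C * Real.exp (9 * U + 16 * U / V * B)) * Real.exp (-((16 * U / V - 1 / 2) * |v|)) := by
    intro v
    rw [norm_mul]
    have h1 := hff r χ (U - v)
    have h2 := hkb0 v
    have h3 : |U - v| ≤ U + |v| := by
      have := abs_sub U v
      rwa [abs_of_pos hU0] at this
    have h4 : Real.exp (|U - v| / 2) ≤ Real.exp ((U + |v|) / 2) := Real.exp_le_exp.mpr (by linarith)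
    calc ‖ff χ (U - v)‖ * ‖hkb χ m B U γ v‖
        ≤ (C * Real.exp ((U + |v|) / 2)) * Real.exp (17 / 2 * U + 16 * U / V * (B - |v|)) := by
          refine mul_le_mul (h1.trans ?_) h2 (norm_nonneg _) (by positivity)
          exact mul_le_mul_of_nonneg_left h4 (by linarith)
      _ = (C * Real.exp (9 * U + 16 * U / V * B)) * Real.exp (-((16 * U / V - 1 / 2) * |v|)) := by
          rw [mul_assoc, mul_assoc, ← Real.exp_add, ← Real.exp_add]
          congr 2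
          ring
  have hW0 : 0 ≤ W := by linarith
  obtain ⟨-, htail⟩ := A9_tail (fun v : ℝ => ff χ (U - v) * hkb χ m B U γ v) (C * Real.exp (9 * U + 16 * U / V * B))
    (16 * U / V - 1 / 2) W (by linarith) hW0 (by positivity) hFm hF
  have ht2 : 2 * (C * Real.exp (9 * U + 16 * U / V * B)) * Real.exp (-((16 * U / V - 1 / 2) * W)) ≤
      2 * C * Real.exp (-(6 * U)) := by
    have e0 : 16 * U / V * V = 16 * U := by
      field_simp
    have e2 : 2 * (C * Real.exp (9 * U + 16 * U / V * B)) * Real.exp (-((16 * U / V - 1 / 2) * W)) =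
        2 * C * Real.exp ((9 * U + 16 * U / V * B) + -((16 * U / V - 1 / 2) * W)) := by
      rw [Real.exp_add (9 * U + 16 * U / V * B)]
      ring
    rw [e2]
    refine mul_le_mul_of_nonneg_left (Real.exp_le_exp.mpr ?_) (by linarith)
    have e3 : (9 * U + 16 * U / V * B) + -((16 * U / V - 1 / 2) * W) = 9 * U - 16 * U / V * V + W / 2 := by
      rw [hBV]; ring
    rw [e3, e0]
    linarith
  have hfull : ‖(∫ v : ℝ, ff χ (U - v) * hkb χ m B U γ v) + E‖ ≤ Real.exp (-(U / 16)) := by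
    rw [hpl, hps]
    have e1 : ∀ J E' : ℂ, (1 / (2 * Real.pi) : ℂ) * (J - 2 * Real.pi * E') + E' =
        (1 / (2 * Real.pi) : ℂ) * J := by
      intro J E'
      have hpi : (Real.pi : ℂ) ≠ 0 := by exact_mod_cast Real.pi_ne_zero
      field_simp
      ring
    rw [e1, norm_mul]
    have e2 : ‖(1 / (2 * Real.pi) : ℂ)‖ ≤ 1 := by
      rw [norm_div, norm_one, norm_mul, Complex.norm_real, Real.norm_eq_abs, abs_of_pos Real.pi_pos,
        Complex.norm_ofNat, div_le_one (by positivity)]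
      linarith [Real.pi_gt_three]
    calc ‖(1 / (2 * Real.pi) : ℂ)‖ * ‖∫ t : ℝ, Phb χ m B U γ (-1 / 4 + (t : ℂ) * I)‖
        ≤ 1 * Real.exp (-(U / 16)) := mul_le_mul e2 hP (norm_nonneg _) zero_le_one
      _ = Real.exp (-(U / 16)) := one_mul _
  have e3 : (∫ v in (-W)..W, ff χ (U - v) * hkb χ m B U γ v) + E =
      ((∫ v : ℝ, ff χ (U - v) * hkb χ m B U γ v) + E) -
        ((∫ v : ℝ, ff χ (U - v) * hkb χ m B U γ v) - ∫ v in (-W)..W, ff χ (U - v) * hkb χ m B U γ v) := by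
    ring
  rw [e3]
  refine (norm_sub_le _ _).trans ?_
  linarith

end Pool.Agent.SF
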