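import Pool.Agent.Lib.MP_9cfc0a_nt.SF.F7
import Pool.Agent.Lib.MP_9cfc0a_nt.SF.F8
import Pool.Agent.Lib.MP_9cfc0a_nt.Mg.G066
import Pool.Agent.Lib.MP_9cfc0a_nt.Mg.G065
import Pool.Agent.Lib.MP_9cfc0a_nt.Mg.G054

set_option autoImplicit false

/-! Task G6: the window for one primitive character. -/

namespace Pool.Agent.SF

open Complex MeasureTheory
open Pool.Agent.SK Pool.Agent.SD Pool.Agent.SE
open Pool.Agent.SO (prim NN pt pz MM kw)

/-- The final inequality. -/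
theorem G6_final (ε V B G F N : ℝ) (he : 0 < ε) (he1 : ε ≤ 1) (hV : 0 ≤ V) (hN : 8 / ε ≤ N) (hB : (N + 1) * B = N * V)
    (hB0 : 0 < B) (hG : 0 < G) (h : ((1 - ε / 16) * G) ^ 2 ≤ F * ((1 + ε / 8) * G / (2 * B))) :
    2 * V * ((1 - ε) * G) ≤ F := by
  have hN0 : 0 < N := lt_of_lt_of_le (by positivity) hN
  have h1 : (1 - ε / 8) * V ≤ B := by
    have h2 : 8 ≤ N * ε := by
      rw [div_le_iff₀ he] at hN
      exact hN
    have h3 : (1 - ε / 8) * V * (N + 1) ≤ B * (N + 1) := by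
      rw [mul_comm B, hB]
      have h4 : 0 ≤ V * (ε * (N + 1) / 8 - 1) := by
        refine mul_nonneg hV ?_
        nlinarith
      nlinarith
    exact le_of_mul_le_mul_right h3 (by linarith)
  have h5 : (1 - ε / 16) ^ 2 * G * (2 * B) ≤ F * (1 + ε / 8) := by
    have h6 : ((1 - ε / 16) * G) ^ 2 * (2 * B) ≤ F * ((1 + ε / 8) * G / (2 * B)) * (2 * B) :=
      mul_le_mul_of_nonneg_right h (by linarith)
    have h7 : F * ((1 + ε / 8) * G / (2 * B)) * (2 * B) = F * (1 + ε / 8) * G := by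
      field_simp
    rw [h7] at h6
    refine le_of_mul_le_mul_right ?_ hG
    calc (1 - ε / 16) ^ 2 * G * (2 * B) * G = ((1 - ε / 16) * G) ^ 2 * (2 * B) := by ring
      _ ≤ _ := h6
  have h8 : (1 - ε) * (1 + ε / 8) ≤ (1 - ε / 16) ^ 2 * (1 - ε / 8) := by nlinarith [sq_nonneg ε, mul_pos he he]
  have h9 : (1 - ε) * (1 + ε / 8) * (2 * V * G) ≤ (1 - ε / 16) ^ 2 * (1 - ε / 8) * (2 * V * G) :=
    mul_le_mul_of_nonneg_right h8 (by positivity)
  have h10 : (1 - ε / 16) ^ 2 * (1 - ε / 8) * (2 * V * G) ≤ (1 - ε / 16) ^ 2 * G * (2 * B) := by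
    calc (1 - ε / 16) ^ 2 * (1 - ε / 8) * (2 * V * G) = ((1 - ε / 16) ^ 2 * G * 2) * ((1 - ε / 8) * V) := by ring
      _ ≤ ((1 - ε / 16) ^ 2 * G * 2) * B := mul_le_mul_of_nonneg_left h1 (by positivity)
      _ = _ := by ring
  refine le_of_mul_le_mul_right ?_ (show (0 : ℝ) < 1 + ε / 8 by linarith)
  calc 2 * V * ((1 - ε) * G) * (1 + ε / 8) = (1 - ε) * (1 + ε / 8) * (2 * V * G) := by ring
    _ ≤ _ := h9.trans (h10.trans h5)

/-- `‖e^{iUγ}/ρ‖² = 1/(1/4 + γ²)`. -/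
theorem G6_norm (U γ : ℝ) : ‖Complex.exp ((U : ℂ) * ((γ : ℂ) * I)) / (1 / 2 + (γ : ℂ) * I)‖ ^ 2 = 1 / (1 / 4 + γ ^ 2) := by
  have h3 : ‖Complex.exp ((U : ℂ) * ((γ : ℂ) * I))‖ = 1 := by
    rw [← mul_assoc, ← Complex.ofReal_mul]
    exact Complex.norm_exp_ofReal_mul_I _
  rw [norm_div, h3, div_pow, one_pow, ← Complex.normSq_eq_norm_sq]
  congr 1
  rw [Complex.normSq_apply]
  have h1 : (1 / 2 + (γ : ℂ) * I).re = 1 / 2 := by
    have : (1 / 2 : ℂ) = ((1 / 2 : ℝ) : ℂ) := by push_cast; rfl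
    rw [this]
    simp
  have h2 : (1 / 2 + (γ : ℂ) * I).im = γ := by
    have : (1 / 2 : ℂ) = ((1 / 2 : ℝ) : ℂ) := by push_cast; rfl
    rw [this]
    simp
  rw [h1, h2]
  ring

/-- The error factor. -/
theorem G6_exp (r : ℕ) (hr : 3 ≤ r) (U : ℝ) (hU : 4000 * Real.log r ≤ U) : (r : ℝ) * Real.exp (-(U / 20)) ≤ 1 / r := by
  have hr0 : (0 : ℝ) < r := by exact_mod_cast (by omega : 0 < r)
  have hr1 : (1 : ℝ) ≤ r := by exact_mod_cast (by omega : 1 ≤ r)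
  have hl : 0 ≤ Real.log r := Real.log_nonneg hr1
  have h4 : Real.exp (-(U / 20)) ≤ 1 / (r : ℝ) ^ 2 := by
    have h5 : -(U / 20) ≤ -(2 * Real.log r) := by linarith
    refine (Real.exp_le_exp.2 h5).trans (le_of_eq ?_)
    rw [Real.exp_neg, one_div]
    congr 1
    have h6 : (2 : ℝ) * Real.log r = ((2 : ℕ) : ℝ) * Real.log r := by norm_num
    rw [h6, Real.exp_nat_mul, Real.exp_log hr0]
  calc (r : ℝ) * Real.exp (-(U / 20)) ≤ r * (1 / (r : ℝ) ^ 2) := mul_le_mul_of_nonneg_left h4 hr0.le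
    _ = 1 / r := by field_simp

open scoped Classical in
/-- G6. PROOF. As `prim_window` in SE/D5.lean, with the weights `c_w = conj(e^{iU w.im}/ρ_w)`. -/
theorem prim_windowN (T : ℕ) (hT : 1 ≤ T) (ε₁ ε : ℝ) (hε : 0 < ε₁) (hε1 : ε₁ ≤ 1) (he : 0 < ε) (he1 : ε ≤ 1) (b R K : ℝ)
    (hb1 : 1 ≤ b) (hR : 2 * b + 8 ≤ R) (hK : 0 ≤ K) (m : ℕ) (hm : 6 ≤ m) : ∃ N₀ : ℕ, 1 ≤ N₀ ∧ ∀ N : ℕ, N₀ ≤ N → ∃ r₀ : ℕ, 3 ≤ r₀ ∧
    ∀ (r : ℕ) [NeZero r], r₀ ≤ r → ∀ χ ∈ prim r,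
      (((Finset.range (nj r T)).filter (fun j => ¬ gd r b R K m χ (tj r T j))).card : ℝ) ≤
        ε / 2 * ε₁ / (100 * (T + 1)) * (nj r T : ℝ) →
      ∀ U : ℝ, 8000 * ((N : ℝ) + 1) * Real.log r ≤ U →
        2 * VN r N U * ((1 - ε) * (gF (IZ χ (T : ℝ) (ε₁ / Real.log r)) - ε * Real.log r)) ≤
          ∫ u in (U - VN r N U)..(U + VN r N U), ‖ff χ u‖ ^ 2 := by
  obtain ⟨c₀, hc₀, hlow⟩ := cell_lower b R ε₁ hb1 hR hε hε1
  obtain ⟨N₁, hN₁, hsum⟩ := sum_norm m hm b R K (T : ℝ) ε₁ hb1 hR hK (by positivity) hε hε1 (ε / 8) (by positivity)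
  refine ⟨max N₁ ⌈8 / ε⌉₊, hN₁.trans (le_max_left _ _), fun N hN => ?_⟩
  have hNN₁ : N₁ ≤ N := (le_max_left _ _).trans hN
  have hN8 : 8 / ε ≤ (N : ℝ) := (Nat.le_ceil _).trans (by exact_mod_cast (le_max_right _ _).trans hN)
  have hN1 : 1 ≤ N := hN₁.trans hNN₁
  have hN1r : (1 : ℝ) ≤ N := by exact_mod_cast hN1
  obtain ⟨r₁, hr₁, hnorm⟩ := hsum N hNN₁
  obtain ⟨r₂, hr₂, hpair⟩ := pairingN (T : ℝ) (by positivity) m N (by omega)
  obtain ⟨r₃, hr₃, hreg⟩ := regime 1 (T : ℝ) le_rfl (by positivity) m (by omega)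
  have hT0 : (0 : ℝ) ≤ T := by positivity
  obtain ⟨E, hE⟩ : ∃ E : ℝ, E = 2 * (1 / 4 + (T : ℝ) ^ 2) / c₀ := ⟨_, rfl⟩
  have hE0 : 0 < E := by rw [hE]; positivity
  obtain ⟨r₄, hr₄⟩ : ∃ r₄ : ℕ, r₄ = ⌈Real.exp 4 + 16 * E / ε⌉₊ := ⟨_, rfl⟩
  refine ⟨max r₁ (max r₂ (max r₃ r₄)), le_trans hr₁ (le_max_left _ _), ?_⟩
  intro r _ hr χ hχ hbad U hU
  have hra : r₁ ≤ r := by omega
  have hrb : r₂ ≤ r := by omega
  have hrc : r₃ ≤ r := by omega
  have hrd : r₄ ≤ r := by omega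
  have hr3 : 3 ≤ r := hr₁.trans hra
  have hr0 : (0 : ℝ) < r := by exact_mod_cast (by omega : 0 < r)
  have hr1 : (1 : ℝ) ≤ r := by exact_mod_cast (by omega : 1 ≤ r)
  have hbig : Real.exp 4 + 16 * E / ε ≤ r := by
    rw [hr₄] at hrd
    exact (Nat.le_ceil _).trans (by exact_mod_cast hrd)
  have hexp4 : Real.exp 4 ≤ r := by
    have : 0 ≤ 16 * E / ε := by positivity
    linarith
  have hEr : E / r ≤ ε / 16 := by
    have h1 : 16 * E / ε ≤ r := by linarith [Real.exp_pos 4]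
    rw [div_le_iff₀ he] at h1
    rw [div_le_iff₀ hr0]
    linarith
  have hl4 : 4 ≤ Real.log r := by
    rw [Real.le_log_iff_exp_le hr0]
    exact hexp4
  have hU4 : 4000 * Real.log r ≤ U := by
    refine le_trans ?_ hU
    nlinarith
  obtain ⟨hV1, hV2, ⟨-, -, hsg, hvl⟩, -, -, -, hlV, hU1⟩ := hreg r hrc U hU4
  have hVV0 : 0 < VV r U := by linarith
  have hB0 : 0 < BN r N U := by
    unfold BN
    positivity
  have hVN0 : 0 < VN r N U := by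
    unfold VN
    positivity
  obtain ⟨J, t, hJ, hJg, hgJ⟩ := select_all T hT ε₁ (ε / 2) hε hε1 (by positivity) r hexp4 χ hχ b R K m hbad
  obtain ⟨V, hVdef⟩ : ∃ V : ℝ, V = VN r N U := ⟨_, rfl⟩
  obtain ⟨B, hBdef⟩ : ∃ B : ℝ, B = BN r N U := ⟨_, rfl⟩
  obtain ⟨G, hGdef⟩ : ∃ G : ℝ, G = gF J := ⟨_, rfl⟩
  have hnorm' := hnorm r hra χ hχ J t hJg U hU4
  rw [← hBdef] at hnorm' hB0
  rw [← hVdef] at hVN0
  rw [← hGdef] at hgJ
  have hBV : ((N : ℝ) + 1) * B = N * V := by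
    rw [hBdef, hVdef]
    unfold BN VN
    ring
  have hG0 : 0 ≤ G := by
    rw [hGdef]
    unfold gF
    exact Finset.sum_nonneg fun w _ => by positivity
  rw [← hVdef]
  have hF0 : 0 ≤ ∫ u in (U - V)..(U + V), ‖ff χ u‖ ^ 2 :=
    intervalIntegral.integral_nonneg (by linarith) (fun v _ => by positivity)
  have hred : 2 * V * ((1 - ε) * (gF (IZ χ (T : ℝ) (ε₁ / Real.log r)) - ε * Real.log r)) ≤ 2 * V * ((1 - ε) * G) := by
    refine mul_le_mul_of_nonneg_left (mul_le_mul_of_nonneg_left ?_ (by linarith)) (by linarith)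
    have : 0 ≤ ε / 2 * Real.log r := by positivity
    linarith
  refine hred.trans ?_
  rcases hG0.eq_or_lt with hG0' | hG0'
  · rw [← hG0', mul_zero, mul_zero]
    exact hF0
  -- the coefficients
  set Dd : ℂ → ℂ := fun w => deriv χ.LFunction (1 / 2 + (w.im : ℂ) * I) with hDd
  set aa : ℂ → ℂ := fun w => Complex.exp ((U : ℂ) * ((w.im : ℂ) * I)) / (1 / 2 + (w.im : ℂ) * I) with haa
  set cc : ℂ → ℂ := fun w => (starRingEnd ℂ) (aa w) with hcc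
  have haan : ∀ w : ℂ, ‖aa w‖ ^ 2 = 1 / (1 / 4 + w.im ^ 2) := fun w => G6_norm U w.im
  have hccn : ∀ w : ℂ, ‖cc w‖ ^ 2 = 1 / (1 / 4 + w.im ^ 2) := fun w => by
    rw [hcc]
    simp only [Complex.norm_conj]
    exact haan w
  have hccaa : ∀ w : ℂ, cc w * aa w = ((1 / (1 / 4 + w.im ^ 2) : ℝ) : ℂ) := fun w => by
    rw [← haan w, hcc]
    simp only
    rw [mul_comm, Complex.mul_conj, Complex.normSq_eq_norm_sq]
  have hccsum : ∑ w ∈ J, ‖cc w‖ ^ 2 = G := by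
    rw [hGdef]
    unfold gF
    exact Finset.sum_congr rfl fun w _ => hccn w
  have hDd0 : ∀ w ∈ J, Dd w ≠ 0 := fun w hw => (hJg w hw).2.2.2.2.2.1
  have hcont : ∀ w ∈ J, Continuous (hkb χ m B U w.im) := by
    intro w hw
    exact hkb_cont r (by omega) χ hχ m B U w.im hsg hvl.le (hJg w hw).2.2.2.2.1
  set H : ℝ → ℂ := fun v => ∑ w ∈ J, cc w / Dd w * hkb χ m B U w.im v with hH
  have hHc : Continuous H := by
    refine continuous_finsetSum _ fun j hj => ?_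
    exact continuous_const.mul (hcont j hj)
  have hint : ∀ w ∈ J, IntervalIntegrable (fun v => ff χ (U - v) * hkb χ m B U w.im v) volume (-V) V :=
    fun w hw => D5_int r χ U V hVN0.le _ (hcont w hw)
  have hS : ∫ v in (-V)..V, ff χ (U - v) * H v =
      ∑ w ∈ J, cc w / Dd w * ∫ v in (-V)..V, ff χ (U - v) * hkb χ m B U w.im v := by
    have h1 : ∀ v, ff χ (U - v) * H v = ∑ w ∈ J, cc w / Dd w * (ff χ (U - v) * hkb χ m B U w.im v) := by
      intro v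
      rw [hH]
      simp only
      rw [Finset.mul_sum]
      exact Finset.sum_congr rfl fun w _ => by ring
    simp_rw [h1]
    rw [intervalIntegral.integral_finsetSum (fun w hw => (hint w hw).const_mul _)]
    exact Finset.sum_congr rfl fun w _ => intervalIntegral.integral_const_mul _ _
  -- the error
  have hMle : ∀ s : ℝ, ‖MM r χ (pt r b s)‖ ≤ r := by
    intro s
    have h1 : 0 ≤ (pt r b s).re := by
      unfold Pool.Agent.SO.pt
      have h2 : ((b : ℂ) / (Real.log r : ℂ)) = ((b / Real.log r : ℝ) : ℂ) := by push_cast; rfl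
      rw [h2, Complex.add_re, Complex.add_re, Complex.ofReal_re, Complex.re_ofReal_mul, Complex.I_re]
      have h3 : 0 ≤ b / Real.log r := by positivity
      have h4 : (1 / 2 : ℂ).re = 1 / 2 := by norm_num
      rw [h4]
      linarith
    refine (Pool.Agent.SO.MM_le r (by omega) χ _ h1).trans ?_
    calc (r : ℝ) ^ (1 / 8 : ℝ) ≤ (r : ℝ) ^ (1 : ℝ) := Real.rpow_le_rpow_of_exponent_le hr1 (by norm_num)
      _ = r := Real.rpow_one _
  have hDinv : ∀ w ∈ J, ‖Dd w‖⁻¹ ≤ r / c₀ := by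
    intro w hw
    obtain ⟨-, hgdw, hγT, hγt, h0, h1, hiso⟩ := hJg w hw
    have h2 := hlow r hr3 χ hχ K m (t w) hgdw w.im hγt h0 h1 hiso
    have h3 : 0 < ‖Dd w‖ := norm_pos_iff.2 (hDd0 w hw)
    have h4 : c₀ ≤ ‖Dd w‖ * r := by
      calc c₀ ≤ c₀ * Real.log r := by nlinarith
        _ ≤ ‖Dd w‖ * ‖MM r χ (pt r b (t w))‖ := h2
        _ ≤ ‖Dd w‖ * r := mul_le_mul_of_nonneg_left (hMle _) h3.le
    rw [inv_le_comm₀ h3 (by positivity), inv_div, div_le_iff₀ hr0]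
    exact h4
  have hcle : ∀ w ∈ J, ‖cc w‖ ≤ 2 * (1 / 4 + (T : ℝ) ^ 2) * ‖cc w‖ ^ 2 := by
    intro w hw
    obtain ⟨-, -, hγT, -⟩ := hJg w hw
    have h1 : w.im ^ 2 ≤ (T : ℝ) ^ 2 := by
      rw [← sq_abs w.im]
      exact pow_le_pow_left₀ (abs_nonneg _) hγT 2
    have h2 : ‖cc w‖ ^ 2 ≤ 2 ^ 2 := by
      rw [hccn w, div_le_iff₀ (by positivity)]
      nlinarith [sq_nonneg w.im]
    have h3 : ‖cc w‖ ≤ 2 := (pow_le_pow_iff_left₀ (norm_nonneg _) (by norm_num) (by norm_num)).1 h2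
    have h4 : 1 ≤ (1 / 4 + (T : ℝ) ^ 2) * ‖cc w‖ ^ 2 := by
      rw [hccn w, mul_one_div, le_div_iff₀ (by positivity)]
      linarith
    nlinarith [norm_nonneg (cc w)]
  have herr : ‖(∫ v in (-V)..V, ff χ (U - v) * H v) + ((G : ℝ) : ℂ)‖ ≤ ε / 16 * G := by
    have h1 : (∫ v in (-V)..V, ff χ (U - v) * H v) + ((G : ℝ) : ℂ) =
        ∑ w ∈ J, cc w / Dd w * ((∫ v in (-V)..V, ff χ (U - v) * hkb χ m B U w.im v) + Dd w * Complex.exp ((U : ℂ) * ((w.im : ℂ) * I)) / (1 / 2 + (w.im : ℂ) * I)) := by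
      rw [hS]
      have h2 : ((G : ℝ) : ℂ) = ∑ w ∈ J, cc w / Dd w * (Dd w * Complex.exp ((U : ℂ) * ((w.im : ℂ) * I)) / (1 / 2 + (w.im : ℂ) * I)) := by
        rw [hGdef]
        unfold gF
        rw [Complex.ofReal_sum]
        refine Finset.sum_congr rfl fun w hw => ?_
        rw [← hccaa w]
        have h3 := hDd0 w hw
        rw [mul_div_assoc (Dd w), ← mul_assoc, div_mul_cancel₀ _ h3]
      rw [h2, ← Finset.sum_add_distrib]
      exact Finset.sum_congr rfl fun w _ => by rw [mul_add]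
    rw [h1]
    have h2 : ∀ w ∈ J, ‖cc w / Dd w * ((∫ v in (-V)..V, ff χ (U - v) * hkb χ m B U w.im v) + Dd w * Complex.exp ((U : ℂ) * ((w.im : ℂ) * I)) / (1 / 2 + (w.im : ℂ) * I))‖ ≤
        E / r * ‖cc w‖ ^ 2 := by
      intro w hw
      obtain ⟨-, hgdw, hγT, hγt, h0, h1, hiso⟩ := hJg w hw
      have h3 := hpair r hrb χ hχ w.im hγT h0 U hU
      rw [← hVdef, ← hBdef] at h3
      rw [norm_mul, norm_div, div_eq_mul_inv]
      have h4 := hcle w hw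
      have h5 := hDinv w hw
      have h6 := G6_exp r hr3 U hU4
      calc ‖cc w‖ * ‖Dd w‖⁻¹ * _ ≤ (2 * (1 / 4 + (T : ℝ) ^ 2) * ‖cc w‖ ^ 2) * (r / c₀) * Real.exp (-(U / 20)) := by
            refine mul_le_mul (mul_le_mul h4 h5 (by positivity) (by positivity)) h3 (norm_nonneg _) (by positivity)
        _ = (2 * (1 / 4 + (T : ℝ) ^ 2) / c₀) * ‖cc w‖ ^ 2 * (r * Real.exp (-(U / 20))) := by ring
        _ ≤ (2 * (1 / 4 + (T : ℝ) ^ 2) / c₀) * ‖cc w‖ ^ 2 * (1 / r) := mul_le_mul_of_nonneg_left h6 (by positivity)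
        _ = E / r * ‖cc w‖ ^ 2 := by rw [hE]; ring
    refine (norm_sum_le _ _).trans ((Finset.sum_le_sum h2).trans ?_)
    rw [← Finset.mul_sum, hccsum]
    exact mul_le_mul_of_nonneg_right hEr hG0
  have hSlow : (1 - ε / 16) * G ≤ ‖∫ v in (-V)..V, ff χ (U - v) * H v‖ := by
    have h1 : ‖((G : ℝ) : ℂ)‖ = G := by
      rw [Complex.norm_real, Real.norm_eq_abs, abs_of_nonneg hG0]
    have h2 : ‖((G : ℝ) : ℂ)‖ ≤ ‖(∫ v in (-V)..V, ff χ (U - v) * H v) + ((G : ℝ) : ℂ)‖ +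
        ‖∫ v in (-V)..V, ff χ (U - v) * H v‖ := by
      have := norm_sub_le ((∫ v in (-V)..V, ff χ (U - v) * H v) + ((G : ℝ) : ℂ))
        (∫ v in (-V)..V, ff χ (U - v) * H v)
      rwa [add_sub_cancel_left] at this
    rw [h1] at h2
    linarith
  -- the norm
  have hHn : ∫ v in (-V)..V, ‖H v‖ ^ 2 ≤ (1 + ε / 8) * G / (2 * B) := by
    have h1 := (plancherel_hkb r (by omega) χ hχ m B U V hVN0.le hsg hvl.le J (fun w hw => (hJg w hw).2.2.2.2.1)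
      (fun w => cc w / Dd w)).2
    refine h1.trans ?_
    have h2 := hnorm' cc
    have h3 : ∀ ξ : ℝ, (∑ w ∈ J, cc w / Dd w * hb χ m B U w.im ((ξ : ℂ) * I)) =
        ∑ w ∈ J, cc w * (hb χ m B U w.im ((ξ : ℂ) * I) / deriv χ.LFunction (1 / 2 + (w.im : ℂ) * I)) := fun ξ =>
      Finset.sum_congr rfl fun w _ => by
        rw [hDd]
        ring
    simp_rw [h3]
    rw [hccsum] at h2
    calc 1 / (2 * Real.pi) * _ ≤ 1 / (2 * Real.pi) * ((1 + ε / 8) * (Real.pi / B) * G) :=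
          mul_le_mul_of_nonneg_left h2 (by positivity)
      _ = (1 + ε / 8) * G / (2 * B) := by
          have := Real.pi_pos
          field_simp
  have hF0' : 0 ≤ ∫ v in (-V)..V, ‖ff χ (U - v)‖ ^ 2 :=
    intervalIntegral.integral_nonneg (by linarith) (fun v _ => by positivity)
  have hcs := D5_cs (fun v => ff χ (U - v)) H (-V) V (by linarith) (D5_int2 r χ U V hVN0.le)
    ((hHc.norm.pow 2).intervalIntegrable _ _) (D5_int r χ U V hVN0.le H hHc)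
  have hsub : ∫ u in (U - V)..(U + V), ‖ff χ u‖ ^ 2 = ∫ v in (-V)..V, ‖ff χ (U - v)‖ ^ 2 := by
    rw [intervalIntegral.integral_comp_sub_left (fun u => ‖ff χ u‖ ^ 2) U, sub_neg_eq_add]
  rw [hsub]
  refine G6_final ε V B G _ N he he1 hVN0.le hN8 hBV hB0 hG0' ?_
  have h16 : 0 ≤ (1 - ε / 16) * G := mul_nonneg (by linarith) hG0
  refine (pow_le_pow_left₀ h16 hSlow 2).trans (hcs.trans ?_)
  exact mul_le_mul_of_nonneg_left hHn hF0'

end Pool.Agent.SF
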