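import Pool.Agent.Lib.MP_9cfc0a_nt.Mg.G068

set_option autoImplicit false

/-! Task H5: the variance. -/

namespace Pool.Agent.SF

open Complex MeasureTheory
open Pool.Agent.SK Pool.Agent.SD Pool.Agent.SE Pool.Agent.SW MP9cfc0a.SK
open Pool.Agent.EM (psiC V integrable_psiC_sq_window integrable_V_window)
open Pool.Agent.SO (prim NN pt pz MM kw)

/-- The last inequality between real numbers. -/
theorem H5_real (ε L c s φ En lN : ℝ) (hε : 0 < ε) (hε1 : ε ≤ 1 / 2) (hL : 1 ≤ L) (hφ : 0 < φ) (hl : 0 ≤ lN)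
    (hc : c ≤ ε / 100 * L) (hs : (1 - ε / 16) * φ ≤ s) (hE : En ≤ φ * (L ^ 2 / 6 + c * L)) :
    φ * ((2 / 3 - ε) * (L * lN)) ≤ (1 - ε / 16) * lN * (s * (L - ε / 16 * L) - 2 / L * En) := by
  have hL0 : 0 < L := by linarith
  have h1 : 2 / L * En ≤ φ * ((1 / 3 + ε / 50) * L) := by
    have h2 : 2 / L * En ≤ 2 / L * (φ * (L ^ 2 / 6 + c * L)) :=
      mul_le_mul_of_nonneg_left hE (by positivity)
    have h3 : 2 / L * (φ * (L ^ 2 / 6 + c * L)) = φ * (L / 3 + 2 * c) := by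
      field_simp
      ring
    rw [h3] at h2
    refine h2.trans (mul_le_mul_of_nonneg_left ?_ hφ.le)
    linarith
  have h2 : (1 - ε / 16) * φ * (L - ε / 16 * L) ≤ s * (L - ε / 16 * L) := by
    refine mul_le_mul_of_nonneg_right hs ?_
    nlinarith
  have h3 : φ * (L * ((1 - ε / 16) * (1 - ε / 16) - 1 / 3 - ε / 50)) ≤ s * (L - ε / 16 * L) - 2 / L * En := by
    nlinarith
  have h4 : (2 / 3 - ε) ≤ (1 - ε / 16) * ((1 - ε / 16) * (1 - ε / 16) - 1 / 3 - ε / 50) := by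
    nlinarith [sq_nonneg ε, mul_pos hε hε]
  calc φ * ((2 / 3 - ε) * (L * lN)) = (2 / 3 - ε) * (φ * L * lN) := by ring
    _ ≤ (1 - ε / 16) * ((1 - ε / 16) * (1 - ε / 16) - 1 / 3 - ε / 50) * (φ * L * lN) :=
        mul_le_mul_of_nonneg_right h4 (by positivity)
    _ = (1 - ε / 16) * lN * (φ * (L * ((1 - ε / 16) * (1 - ε / 16) - 1 / 3 - ε / 50))) := by ring
    _ ≤ _ := mul_le_mul_of_nonneg_left h3 (mul_nonneg (by linarith) hl)

/-- H5. PROOF. As `all_V` in SE/E2.lean. `e = ε/16`, `chars_all e` with `κ = e`. Sum over `S`: `φ ∫ V/x² ≥ ∑_S ∫ ‖psiC‖²/x² ≥ (1-e) lenN (|S| (1-e) L - (2/L) ∑_S En)` (`variance_upper`), and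
`∑_S En ≤ φ (L²/6 + C L)` (`FG_up`, `V_initial` with `Y = L`, `y = q`; see `both_share` in SE/E1.lean). -/
theorem final_V (ε : ℝ) (hε : 0 < ε) (hε1 : ε ≤ 1 / 2) : ∃ N₀ : ℕ, 1 ≤ N₀ ∧ ∀ N : ℕ, N₀ ≤ N → ∃ q₀ : ℕ, 3 ≤ q₀ ∧ ∀ q : ℕ, q₀ ≤ q →
    ∀ U : ℝ, Real.log q ≤ U →
      (2 / 3 - ε) * (Real.log q * lenN q N U) ≤ ∫ x in Set.Ioc (loN q N U) (upN q N U), V x q / x ^ 2 := by
  obtain ⟨N₀, hN₀, H⟩ := chars_all (ε / 16) (by positivity) (by linarith) (ε / 16) (by positivity)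
  obtain ⟨C, hC, hV⟩ := V_initial
  obtain ⟨q₃, hq₃⟩ : ∃ q₃ : ℕ, ∀ q : ℕ, q₃ ≤ q → 100 * C / ε ≤ Real.log q := by
    have h1 : Filter.Tendsto (fun q : ℕ => Real.log (q : ℝ)) Filter.atTop Filter.atTop :=
      Real.tendsto_log_atTop.comp tendsto_natCast_atTop_atTop
    exact (h1.eventually_ge_atTop _).exists_forall_of_atTop
  refine ⟨N₀, hN₀, fun N hN => ?_⟩
  obtain ⟨q₁, hq₁, G⟩ := H N hN
  refine ⟨max q₁ q₃, hq₁.trans (le_max_left _ _), fun q hq U hU => ?_⟩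
  have hqq1 : q₁ ≤ q := (le_max_left _ _).trans hq
  have hqq3 : q₃ ≤ q := (le_max_right _ _).trans hq
  have hq3 : 3 ≤ q := hq₁.trans hqq1
  have : NeZero q := ⟨by omega⟩
  have hq3r : (3 : ℝ) ≤ q := by exact_mod_cast hq3
  have hL1 : 1 ≤ Real.log q := by
    rw [Real.le_log_iff_exp_le (by linarith)]
    exact Real.exp_one_lt_d9.le.trans (by linarith)
  have hCL : C ≤ ε / 100 * Real.log q := by
    have h4 := hq₃ q hqq3
    rw [div_le_iff₀ hε] at h4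
    linarith
  obtain ⟨S, hSc, hS1, hS⟩ := G q hqq1
  obtain ⟨-, -, hlen⟩ := lenN_pos q N hq3 U hU
  have hlen0 : 0 ≤ lenN q N U := by linarith
  have hX : 1 ≤ loN q N U := le_max_left _ _
  have hφ : (0 : ℝ) < (q.totient : ℝ) := by
    exact_mod_cast Nat.totient_pos.2 (by omega)
  have iV := integrable_V_window q (loN q N U) (upN q N U) hX
  have iχ : ∀ χ ∈ S, IntegrableOn (fun x => ‖psiC χ x‖ ^ 2 / x ^ 2)
      (Set.Ioc (loN q N U) (upN q N U)) := fun χ _ =>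
    integrable_psiC_sq_window χ (loN q N U) (upN q N U) hX
  have hup : ∑ χ ∈ S, ∫ x in Set.Ioc (loN q N U) (upN q N U), ‖psiC χ x‖ ^ 2 / x ^ 2 ≤
      (q.totient : ℝ) * ∫ x in Set.Ioc (loN q N U) (upN q N U), V x q / x ^ 2 := by
    rw [← integral_finsetSum _ iχ, ← integral_const_mul]
    refine setIntegral_mono_on (integrable_finsetSum _ iχ) (iV.const_mul _) measurableSet_Ioc
      fun x hx => ?_
    have hx0 : 0 < x := by linarith [hx.1]
    have h2 := Pool.Agent.EM.variance_upper q x S hS1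
    rw [← Finset.sum_div, ← mul_div_assoc]
    exact div_le_div_of_nonneg_right h2 (by positivity)
  have hlow : (1 - ε / 16) * lenN q N U *
      ((S.card : ℝ) * (Real.log q - ε / 16 * Real.log q) - 2 / Real.log q * ∑ χ ∈ S, En χ q) ≤
      ∑ χ ∈ S, ∫ x in Set.Ioc (loN q N U) (upN q N U), ‖psiC χ x‖ ^ 2 / x ^ 2 := by
    refine le_trans (le_of_eq ?_) (Finset.sum_le_sum fun χ hχ => hS χ hχ U hU)
    rw [← Finset.mul_sum]
    congr 1
    rw [Finset.mul_sum, ← nsmul_eq_mul, ← Finset.sum_const, ← Finset.sum_sub_distrib]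
    refine Finset.sum_congr rfl fun χ _ => ?_
    ring
  have hEn : ∑ χ ∈ S, En χ q ≤ (q.totient : ℝ) * (Real.log q ^ 2 / 6 + C * Real.log q) := by
    have h2 := FG_up q S hS1 q
    have h4 := hV q hq3 (Real.log q) le_rfl
    refine h2.trans (mul_le_mul_of_nonneg_left ?_ hφ.le)
    have hL0 : Real.log q ≠ 0 := by linarith
    have h5 : Real.log q ^ 2 / 2 - Real.log q ^ 3 / (3 * Real.log q) = Real.log q ^ 2 / 6 := by
      field_simp
      ring
    linarith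
  have h := H5_real ε (Real.log q) C (S.card : ℝ) (q.totient : ℝ) (∑ χ ∈ S, En χ q) (lenN q N U) hε hε1 hL1 hφ hlen0 hCL hSc hEn
  exact le_of_mul_le_mul_left ((h.trans hlow).trans hup) hφ

end Pool.Agent.SF
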