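import Pool.Agent.Lib.MP_9cfc0a_nt.Mg.G068
import Pool.Agent.Lib.MP_9cfc0a_nt.SW.NE

set_option autoImplicit false

/-! Task H6: the race variances. -/

namespace Pool.Agent.SF

open Complex MeasureTheory
open Pool.Agent.SK Pool.Agent.SD Pool.Agent.SE Pool.Agent.SW MP9cfc0a.SK
open Pool.Agent.EM (psiC V)
open Pool.Agent.SO (prim NN pt pz MM kw)

/-- The weighted sum of the energies is at most the integral of the race variance. -/
theorem H6_up (q : ℕ) [NeZero q] (c : ℕ) (hc : Nat.Coprime c q) (S : Finset (DirichletCharacter ℂ q)) (y : ℝ) :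
    ∑ χ ∈ S, om c χ * En χ y ≤
      (q.totient : ℝ) * ∫ x in Set.Ioc 1 y, (1 - Real.log x / Real.log y) * (Vc x q c / x ^ 2) := by
  have iV := integrable_weight _ y (integrable_Vc_window q c hc 1 y le_rfl)
  have iχ : ∀ χ ∈ S, IntegrableOn (fun x => om c χ * ((1 - Real.log x / Real.log y) *
      (‖psiC χ x‖ ^ 2 / x ^ 2))) (Set.Ioc 1 y) := fun χ _ =>
    (integrable_weight _ y (Pool.Agent.EM.integrable_psiC_sq_window χ 1 y le_rfl)).const_mul _
  have e0 : ∑ χ ∈ S, om c χ * En χ y = ∑ χ ∈ S, ∫ x in Set.Ioc 1 y, om c χ * ((1 - Real.log x / Real.log y) *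
      (‖psiC χ x‖ ^ 2 / x ^ 2)) := by
    refine Finset.sum_congr rfl fun χ _ => ?_
    unfold En
    rw [integral_const_mul]
  rw [e0, ← integral_finsetSum _ iχ, ← integral_const_mul]
  refine setIntegral_mono_on (integrable_finsetSum _ iχ) (iV.const_mul _) measurableSet_Ioc
    fun x hx => ?_
  have hw := weight_mem x y hx
  have hx0 : 0 < x := by linarith [hx.1]
  have h2 : ∑ χ ∈ S, om c χ * ‖psiC χ x‖ ^ 2 ≤ (q.totient : ℝ) * Vc x q c := by
    rw [← Vc_eq q c hc x]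
    exact Finset.sum_le_univ_sum_of_nonneg fun χ => mul_nonneg (om_nonneg c χ) (by positivity)
  have e1 : ∑ χ ∈ S, om c χ * ((1 - Real.log x / Real.log y) * (‖psiC χ x‖ ^ 2 / x ^ 2)) =
      (1 - Real.log x / Real.log y) * ((∑ χ ∈ S, om c χ * ‖psiC χ x‖ ^ 2) / x ^ 2) := by
    rw [Finset.sum_div, Finset.mul_sum]
    refine Finset.sum_congr rfl fun χ _ => ?_
    ring
  rw [e1]
  calc (1 - Real.log x / Real.log y) * ((∑ χ ∈ S, om c χ * ‖psiC χ x‖ ^ 2) / x ^ 2)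
      ≤ (1 - Real.log x / Real.log y) * (((q.totient : ℝ) * Vc x q c) / x ^ 2) := by
        refine mul_le_mul_of_nonneg_left ?_ hw.1
        exact div_le_div_of_nonneg_right h2 (by positivity)
    _ = _ := by ring

/-- H6a. PROOF. `Vc_eq` (SW/VA.lean), `om_nonneg`; as `FG_up` (SD/FG.lean) and `Vc_up` (SW/VB2.lean). `En χ q = ∫_(1,q] (1 - log x/log q) ‖psiC‖²/x²`; `Vc_near` (SW/NE.lean) with `z = q`,
`Y = log q`, divided by `log q`. -/
theorem Vc_En : ∃ C : ℝ, 0 ≤ C ∧ ∀ (q : ℕ) [NeZero q], 3 ≤ q → ∀ c : ℕ, Nat.Coprime c q → ∀ S : Finset (DirichletCharacter ℂ q),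
    ∑ χ ∈ S, om c χ * En χ q ≤ (q.totient : ℝ) * (Real.log q ^ 2 / 6 + C * Real.log q) := by
  obtain ⟨C, hC0, hC⟩ := Vc_near
  refine ⟨C, hC0, fun q _ hq c hc S => ?_⟩
  have h3 : (3 : ℝ) ≤ q := by exact_mod_cast hq
  have hL0 : 0 < Real.log q := Real.log_pos (by linarith)
  have h1 := H6_up q c hc S (q : ℝ)
  have h2 := hC q hq c hc q (by linarith) le_rfl (Real.log q) le_rfl
  refine h1.trans (mul_le_mul_of_nonneg_left ?_ (Nat.cast_nonneg _))
  have e1 : Real.log q * ∫ x in Set.Ioc (1 : ℝ) q, (1 - Real.log x / Real.log q) * (Vc x q c / x ^ 2) =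
      ∫ x in Set.Ioc (1 : ℝ) q, (Real.log q - Real.log x) * (Vc x q c / x ^ 2) := by
    rw [← integral_const_mul]
    refine setIntegral_congr_fun measurableSet_Ioc fun x _ => ?_
    have h4 : Real.log q * (1 - Real.log x / Real.log q) = Real.log q - Real.log x := by
      field_simp
    show Real.log q * ((1 - Real.log x / Real.log q) * (Vc x q c / x ^ 2)) = (Real.log q - Real.log x) * (Vc x q c / x ^ 2)
    rw [← mul_assoc, h4]
  rw [← e1] at h2
  have h5 : Real.log q * ∫ x in Set.Ioc (1 : ℝ) q, (1 - Real.log x / Real.log q) * (Vc x q c / x ^ 2) ≤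
      Real.log q * (Real.log q ^ 2 / 6 + C * Real.log q) := by
    refine h2.trans (le_of_eq ?_)
    ring
  exact le_of_mul_le_mul_left h5 hL0

/-- H6. PROOF. As `all_Vc` in SE/E2.lean. `e = ε/32`, `chars_all e` with `κ = e`. `φ ∫ Vc/x² = ∑_χ om χ ∫ ‖psiC‖²/x² ≥ ∑_S om χ (1-e) lenN (L - 2 En/L - e L)`; `∑_S om ≥ φ - 2 #Sᶜ ≥ (1 - 2e) φ`
and `≤ φ` (`om_sum`, `om_le`, `om_nonneg`), `Vc_En`. (The bracket may be negative for some `χ`: the inequality of `chars_all` still holds.) -/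
theorem final_Vc (ε : ℝ) (hε : 0 < ε) (hε1 : ε ≤ 1 / 2) : ∃ N₀ : ℕ, 1 ≤ N₀ ∧ ∀ N : ℕ, N₀ ≤ N → ∃ q₀ : ℕ, 3 ≤ q₀ ∧
    ∀ (q : ℕ) [NeZero q], q₀ ≤ q → ∀ c : ℕ, Nat.Coprime c q → ¬ c % q = 1 % q → ∀ U : ℝ, Real.log q ≤ U →
      (2 / 3 - ε) * (Real.log q * lenN q N U) ≤ ∫ x in Set.Ioc (loN q N U) (upN q N U), Vc x q c / x ^ 2 := by
  classical
  obtain ⟨C, hC0, hC⟩ := Vc_En
  set e : ℝ := ε / 32 with he
  have he0 : 0 < e := by positivity
  have he1 : e ≤ 1 / 64 := by linarith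
  obtain ⟨N₀, hN₀, H⟩ := chars_all e he0 (by linarith) e he0
  refine ⟨N₀, hN₀, fun N hN => ?_⟩
  obtain ⟨q₁, hq₁, H1⟩ := H N hN
  refine ⟨max q₁ (⌈Real.exp (C / e)⌉₊), hq₁.trans (le_max_left _ _), fun q _ hq c hc hc1 U hU => ?_⟩
  have hqq1 : q₁ ≤ q := (le_max_left _ _).trans hq
  have hqq2 : Real.exp (C / e) ≤ (q : ℝ) := by
    refine (Nat.le_ceil _).trans ?_
    exact_mod_cast (le_max_right _ _).trans hq
  obtain ⟨S, hS1, hS2, hS3⟩ := H1 q hqq1
  have hq3 : 3 ≤ q := hq₁.trans hqq1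
  have h3 : (3 : ℝ) ≤ q := by exact_mod_cast hq3
  have hφ : (0 : ℝ) < (q.totient : ℝ) := by
    exact_mod_cast Nat.totient_pos.mpr (by omega)
  have hL0 : 0 < Real.log q := Real.log_pos (by linarith)
  have hCe : C ≤ e * Real.log q := by
    have h4 : C / e ≤ Real.log q := by
      rw [Real.le_log_iff_exp_le (by linarith)]
      exact hqq2
    rw [div_le_iff₀ he0] at h4
    linarith
  obtain ⟨ha1, hab, hlen⟩ := lenN_pos q N hq3 U hU
  have hEn := hC q hq3 c hc S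
  have hS4 := fun χ hχ => hS3 χ hχ U hU
  set a := loN q N U with ha
  set b := upN q N U with hb
  set Λ := lenN q N U with hΛ
  set L := Real.log q with hL
  have hΛ0 : 0 ≤ Λ := hL0.le.trans hlen
  have hI : ∀ χ : DirichletCharacter ℂ q, IntegrableOn (fun x => om c χ * (‖psiC χ x‖ ^ 2 / x ^ 2)) (Set.Ioc a b) :=
    fun χ => (Pool.Agent.EM.integrable_psiC_sq_window χ a b ha1).const_mul _
  have h1 : (q.totient : ℝ) * ∫ x in Set.Ioc a b, Vc x q c / x ^ 2 =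
      ∑ χ : DirichletCharacter ℂ q, om c χ * ∫ x in Set.Ioc a b, ‖psiC χ x‖ ^ 2 / x ^ 2 := by
    rw [← integral_const_mul]
    have e1 : ∀ x : ℝ, (q.totient : ℝ) * (Vc x q c / x ^ 2) = ∑ χ : DirichletCharacter ℂ q, om c χ * (‖psiC χ x‖ ^ 2 / x ^ 2) := by
      intro x
      rw [← mul_div_assoc, ← Vc_eq q c hc x, Finset.sum_div]
      exact Finset.sum_congr rfl fun χ _ => by ring
    simp_rw [e1]
    rw [integral_finsetSum _ fun χ _ => hI χ]
    exact Finset.sum_congr rfl fun χ _ => integral_const_mul _ _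
  have hnn : ∀ χ : DirichletCharacter ℂ q, 0 ≤ ∫ x in Set.Ioc a b, ‖psiC χ x‖ ^ 2 / x ^ 2 := fun χ =>
    setIntegral_nonneg measurableSet_Ioc fun x _ => by positivity
  have h2 : ∑ χ ∈ S, om c χ * ((1 - e) * Λ * (L - 2 * En χ q / L - e * L)) ≤
      (q.totient : ℝ) * ∫ x in Set.Ioc a b, Vc x q c / x ^ 2 := by
    rw [h1]
    calc ∑ χ ∈ S, om c χ * ((1 - e) * Λ * (L - 2 * En χ q / L - e * L)) ≤
          ∑ χ ∈ S, om c χ * ∫ x in Set.Ioc a b, ‖psiC χ x‖ ^ 2 / x ^ 2 :=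
          Finset.sum_le_sum fun χ hχ => mul_le_mul_of_nonneg_left (hS4 χ hχ) (om_nonneg c χ)
      _ ≤ _ := Finset.sum_le_univ_sum_of_nonneg fun χ => mul_nonneg (om_nonneg c χ) (hnn χ)
  have e2 : ∑ χ ∈ S, om c χ * ((1 - e) * Λ * (L - 2 * En χ q / L - e * L)) =
      (1 - e) * Λ * ((1 - e) * L * (∑ χ ∈ S, om c χ) - 2 / L * ∑ χ ∈ S, om c χ * En χ q) := by
    rw [mul_sub, Finset.mul_sum, Finset.mul_sum, Finset.mul_sum, Finset.mul_sum, ← Finset.sum_sub_distrib]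
    refine Finset.sum_congr rfl fun χ _ => ?_
    ring
  have hcard : ((Finset.univ : Finset (DirichletCharacter ℂ q)).card : ℝ) = (q.totient : ℝ) := by
    rw [Finset.card_univ, ← Nat.card_eq_fintype_card, DirichletCharacter.card_eq_totient_of_hasEnoughRootsOfUnity]
  have h4 : (1 - 2 * e) * (q.totient : ℝ) ≤ ∑ χ ∈ S, om c χ := by
    have h4 := om_sum q c hc hc1
    have h5 := Finset.sum_add_sum_compl S (fun χ => om c χ)
    have h6 : ∑ χ ∈ Sᶜ, om c χ ≤ 2 * (Sᶜ.card : ℝ) := by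
      calc ∑ χ ∈ Sᶜ, om c χ ≤ ∑ _χ ∈ Sᶜ, (2 : ℝ) := Finset.sum_le_sum fun χ _ => om_le c χ
        _ = 2 * (Sᶜ.card : ℝ) := by rw [Finset.sum_const, nsmul_eq_mul, mul_comm]
    have h7 : (Sᶜ.card : ℝ) = (q.totient : ℝ) - (S.card : ℝ) := by
      rw [Finset.card_compl, Nat.cast_sub (Finset.card_le_univ S), ← Finset.card_univ, hcard]
    rw [h4] at h5
    linarith
  have h5 : (1 - e) * L * ((1 - 2 * e) * (q.totient : ℝ)) ≤ (1 - e) * L * ∑ χ ∈ S, om c χ :=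
    mul_le_mul_of_nonneg_left h4 (mul_nonneg (by linarith) hL0.le)
  have h6 : 2 / L * ∑ χ ∈ S, om c χ * En χ q ≤ (q.totient : ℝ) * (L / 3 + 2 * (e * L)) := by
    calc 2 / L * ∑ χ ∈ S, om c χ * En χ q ≤ 2 / L * ((q.totient : ℝ) * (L ^ 2 / 6 + C * L)) :=
          mul_le_mul_of_nonneg_left hEn (by positivity)
      _ = (q.totient : ℝ) * (L / 3 + 2 * C) := by
          field_simp
          ring
      _ ≤ _ := mul_le_mul_of_nonneg_left (by linarith) hφ.le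
  have h7 : (q.totient : ℝ) * ((2 / 3 - 5 * e) * L) ≤
      (1 - e) * L * (∑ χ ∈ S, om c χ) - 2 / L * ∑ χ ∈ S, om c χ * En χ q := by
    have h8 : (q.totient : ℝ) * ((2 / 3 - 5 * e) * L) ≤
        (1 - e) * L * ((1 - 2 * e) * (q.totient : ℝ)) - (q.totient : ℝ) * (L / 3 + 2 * (e * L)) := by
      have h9 : (1 - e) * L * ((1 - 2 * e) * (q.totient : ℝ)) - (q.totient : ℝ) * (L / 3 + 2 * (e * L)) =
          (q.totient : ℝ) * ((2 / 3 - 5 * e) * L) + 2 * e ^ 2 * (q.totient : ℝ) * L := by ring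
      rw [h9]
      have h10 : 0 ≤ 2 * e ^ 2 * (q.totient : ℝ) * L := by positivity
      linarith
    linarith
  have h8 : (1 - e) * Λ * ((q.totient : ℝ) * ((2 / 3 - 5 * e) * L)) ≤
      (q.totient : ℝ) * ∫ x in Set.Ioc a b, Vc x q c / x ^ 2 := by
    refine le_trans ?_ h2
    rw [e2]
    exact mul_le_mul_of_nonneg_left h7 (mul_nonneg (by linarith) hΛ0)
  have h9 : (q.totient : ℝ) * ((2 / 3 - ε) * (L * Λ)) ≤
      (q.totient : ℝ) * ∫ x in Set.Ioc a b, Vc x q c / x ^ 2 := by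
    refine le_trans ?_ h8
    have h10 : (2 / 3 - ε) ≤ (1 - e) * (2 / 3 - 5 * e) := by nlinarith
    have h11 : 0 ≤ (q.totient : ℝ) * (L * Λ) := by positivity
    calc (q.totient : ℝ) * ((2 / 3 - ε) * (L * Λ)) = (2 / 3 - ε) * ((q.totient : ℝ) * (L * Λ)) := by ring
      _ ≤ (1 - e) * (2 / 3 - 5 * e) * ((q.totient : ℝ) * (L * Λ)) := mul_le_mul_of_nonneg_right h10 h11
      _ = _ := by ring
  exact le_of_mul_le_mul_left h9 hφ

end Pool.Agent.SF
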