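import Pool.Agent.Lib.MP_9cfc0a_nt.Mg.G068

set_option autoImplicit false

/-! Task H7: the number of the characters. -/

namespace Pool.Agent.SF

open Complex MeasureTheory
open Pool.Agent.SK Pool.Agent.SD Pool.Agent.SE Pool.Agent.SW MP9cfc0a.SK
open Pool.Agent.EM (psiC V)
open Pool.Agent.SO (prim NN pt pz MM kw)

/-- The elementary inequality for one character outside the set. -/
theorem H7_single (e c L len E I : ℝ) (he : 0 < e) (he1 : e ≤ 1 / 64) (hc1 : c ≤ 2 / 3) (hL : 1 ≤ L)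
    (hlen : 0 < len) (h1 : (1 - e) * len * (L - 2 * E / L - e * L) ≤ I) (h2 : I < c * (L * len)) :
    1 / 2 * (1 - c - 3 * e) * L ^ 2 ≤ E := by
  have hL0 : 0 < L := by linarith
  have h3 : len * ((1 - e) * (L - 2 * E / L - e * L)) ≤ len * (c * L) := by
    calc len * ((1 - e) * (L - 2 * E / L - e * L)) = (1 - e) * len * (L - 2 * E / L - e * L) := by ring
      _ ≤ c * (L * len) := h1.trans h2.le
      _ = len * (c * L) := by ring
  have h4 : (1 - e) * (L - 2 * E / L - e * L) ≤ c * L := le_of_mul_le_mul_left h3 hlen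
  by_contra hcon
  rw [not_le] at hcon
  have h5 : 2 * E / L < (1 - c - 3 * e) * L := by
    rw [div_lt_iff₀ hL0]
    nlinarith
  have h6 : (c + 2 * e) * L < L - 2 * E / L - e * L := by nlinarith
  have h7 : (1 - e) * ((c + 2 * e) * L) < (1 - e) * (L - 2 * E / L - e * L) :=
    mul_lt_mul_of_pos_left h6 (by linarith)
  have h8 : c * L ≤ (1 - e) * ((c + 2 * e) * L) := by
    have h9 : (1 - e) * ((c + 2 * e) * L) - c * L = e * L * (2 - c - 2 * e) := by ring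
    have h10 : 0 ≤ e * L * (2 - c - 2 * e) := mul_nonneg (mul_nonneg he.le hL0.le) (by linarith)
    linarith
  linarith

/-- H7. PROOF. `e = ε/64`-like, `chars_all e` with `κ = e`: `S`. `D = {χ ∈ S : En χ q > (1/2)(1 - c - 3e) L²}`. For `χ ∈ S \ D`: `L - 2 En/L - e L ≥ (c + 2e) L`, `(1-e)(c+2e) ≥ c` (`c ≤ 2/3`), so `χ` is in the
set. `#D (1/2)(1-c-3e) L² ≤ ∑_D En ≤ φ (L²/6 + C L)` (`FG_up`, `V_initial`), so `#D ≤ φ (1/3 + e)/(1-c-3e) ≤ φ (1/(3(1-c)) + ε/2)`; see the last part of the proof of `windows4` in SW/FN2.lean. -/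
theorem final_count (ε : ℝ) (hε : 0 < ε) (hε1 : ε ≤ 1 / 2) : ∃ N₀ : ℕ, 1 ≤ N₀ ∧ ∀ N : ℕ, N₀ ≤ N → ∃ q₀ : ℕ, 3 ≤ q₀ ∧
    ∀ (q : ℕ) [NeZero q], q₀ ≤ q → ∀ c : ℝ, 0 ≤ c → c ≤ 2 / 3 →
      (1 - 1 / (3 * (1 - c)) - ε) * (q.totient : ℝ) ≤
        (Set.ncard {χ : DirichletCharacter ℂ q | ∀ U : ℝ, Real.log q ≤ U →
          c * (Real.log q * lenN q N U) ≤ ∫ x in Set.Ioc (loN q N U) (upN q N U), ‖psiC χ x‖ ^ 2 / x ^ 2} : ℝ) := by
  classical
  set e : ℝ := ε / 32 with hedef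
  have he0 : 0 < e := by positivity
  have he1 : e ≤ 1 / 64 := by linarith
  obtain ⟨N₀, hN₀, H⟩ := chars_all e he0 (by linarith) e he0
  obtain ⟨C, hC, hV⟩ := V_initial
  refine ⟨N₀, hN₀, fun N hN => ?_⟩
  obtain ⟨q₁, hq₁, G⟩ := H N hN
  obtain ⟨q₂, hq₂⟩ : ∃ q₂ : ℕ, ∀ q : ℕ, q₂ ≤ q → 2 * C / e ≤ Real.log q := by
    have h1 : Filter.Tendsto (fun q : ℕ => Real.log (q : ℝ)) Filter.atTop Filter.atTop :=
      Real.tendsto_log_atTop.comp tendsto_natCast_atTop_atTop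
    exact (h1.eventually_ge_atTop _).exists_forall_of_atTop
  refine ⟨max q₁ q₂, hq₁.trans (le_max_left _ _), fun q _ hq c hc0 hc1 => ?_⟩
  have hqq1 : q₁ ≤ q := (le_max_left _ _).trans hq
  have hqq2 : q₂ ≤ q := (le_max_right _ _).trans hq
  have hq3 : 3 ≤ q := hq₁.trans hqq1
  have h3 : (3 : ℝ) ≤ q := by exact_mod_cast hq3
  have hq0 : (0 : ℝ) < q := by linarith
  have hL1 : 1 ≤ Real.log q := by
    rw [Real.le_log_iff_exp_le hq0]
    exact Real.exp_one_lt_d9.le.trans (by linarith)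
  obtain ⟨S, hSc, hS1, hS⟩ := G q hqq1
  have hCL : C * Real.log q ≤ e / 2 * Real.log q ^ 2 := by
    have h4 := hq₂ q hqq2
    rw [div_le_iff₀ he0] at h4
    have h5 : 0 ≤ Real.log q := by linarith
    nlinarith
  have hlen : ∀ U : ℝ, Real.log q ≤ U → 0 < lenN q N U := fun U hU => by
    have := (lenN_pos q N hq3 U hU).2.2
    linarith
  set L := Real.log q with hLdef
  have hL0 : 0 < L := by linarith
  have hL2 : 0 < L ^ 2 := by positivity
  have hφ0 : (0 : ℝ) ≤ (q.totient : ℝ) := Nat.cast_nonneg _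
  set P : DirichletCharacter ℂ q → Prop := fun χ => ∀ U : ℝ, L ≤ U →
    c * (L * lenN q N U) ≤ ∫ x in Set.Ioc (loN q N U) (upN q N U), ‖psiC χ x‖ ^ 2 / x ^ 2 with hPdef
  set D := S.filter (fun χ => ¬ P χ) with hDdef
  have hDS : D ⊆ S := Finset.filter_subset _ _
  have hD1 : ∀ χ ∈ D, 1 / 2 * (1 - c - 3 * e) * L ^ 2 ≤ En χ q := by
    intro χ hχ
    have hχS : χ ∈ S := hDS hχ
    have hχP : ¬ P χ := (Finset.mem_filter.1 hχ).2
    rw [hPdef] at hχP
    push Not at hχP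
    obtain ⟨U, hU1, hU2⟩ := hχP
    exact H7_single e c L (lenN q N U) (En χ q) _ he0 he1 hc1 hL1 (hlen U hU1) (hS χ hχS U hU1) hU2
  have hD2 : (D.card : ℝ) * (1 / 2 * (1 - c - 3 * e) * L ^ 2) ≤ (q.totient : ℝ) * ((1 / 6 + e / 2) * L ^ 2) := by
    have h1 : (D.card : ℝ) * (1 / 2 * (1 - c - 3 * e) * L ^ 2) ≤ ∑ χ ∈ D, En χ q := by
      rw [← nsmul_eq_mul]
      exact Finset.card_nsmul_le_sum _ _ _ hD1
    have h2 := FG_up q D (fun χ hχ => hS1 χ (hDS hχ)) q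
    have h4 := hV q hq3 L le_rfl
    rw [← hLdef] at h2 h4
    have h5 : L ^ 2 / 2 - L ^ 3 / (3 * L) = L ^ 2 / 6 := by
      field_simp
      ring
    have h6 : ∫ x in Set.Ioc (1 : ℝ) q, (1 - Real.log x / L) * (V x q / x ^ 2) ≤ (1 / 6 + e / 2) * L ^ 2 := by
      linarith
    exact h1.trans (h2.trans (mul_le_mul_of_nonneg_left h6 hφ0))
  have hD3 : (D.card : ℝ) * (1 - c - 3 * e) ≤ (q.totient : ℝ) * (1 / 3 + e) := by
    have h1 : (D.card : ℝ) * (1 - c - 3 * e) * L ^ 2 ≤ (q.totient : ℝ) * (1 / 3 + e) * L ^ 2 := by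
      linarith
    exact le_of_mul_le_mul_right h1 hL2
  set r := 1 / (3 * (1 - c)) with hrdef
  have hr0 : 0 < r := by
    have : 0 < 3 * (1 - c) := by linarith
    positivity
  have hr1 : r * (3 * (1 - c)) = 1 := by
    rw [hrdef]
    exact one_div_mul_cancel (by linarith)
  have hr2 : r ≤ 1 := by
    by_contra hcon
    rw [not_le] at hcon
    nlinarith
  have hr3 : 1 / 3 + e ≤ (r + 15 * e) * (1 - c - 3 * e) := by
    have h1 : (r + 15 * e) * (1 - c - 3 * e) = 1 / 3 * (r * (3 * (1 - c))) - 3 * r * e +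
        15 * e * (1 - c) - 45 * e * e := by ring
    rw [h1, hr1]
    have h2 : 5 * e ≤ 15 * e * (1 - c) := by nlinarith
    have h3' : 3 * r * e ≤ 3 * e := by nlinarith
    have h4 : 45 * e * e ≤ e := by nlinarith
    linarith
  have hD4 : (D.card : ℝ) ≤ (q.totient : ℝ) * (r + 15 * e) := by
    have h1 : 0 < 1 - c - 3 * e := by linarith
    have h2 : (D.card : ℝ) * (1 - c - 3 * e) ≤ (q.totient : ℝ) * (r + 15 * e) * (1 - c - 3 * e) := by
      calc (D.card : ℝ) * (1 - c - 3 * e) ≤ (q.totient : ℝ) * (1 / 3 + e) := hD3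
        _ ≤ (q.totient : ℝ) * ((r + 15 * e) * (1 - c - 3 * e)) :=
            mul_le_mul_of_nonneg_left hr3 hφ0
        _ = _ := by ring
    exact le_of_mul_le_mul_right h2 h1
  have hsub : ((S \ D : Finset (DirichletCharacter ℂ q)) : Set (DirichletCharacter ℂ q)) ⊆
      {χ : DirichletCharacter ℂ q | ∀ U : ℝ, L ≤ U →
        c * (L * lenN q N U) ≤ ∫ x in Set.Ioc (loN q N U) (upN q N U), ‖psiC χ x‖ ^ 2 / x ^ 2} := by
    intro χ hχ
    rw [Finset.mem_coe, Finset.mem_sdiff] at hχ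
    obtain ⟨h1, h2⟩ := hχ
    by_contra h3'
    exact h2 (Finset.mem_filter.2 ⟨h1, h3'⟩)
  have hcnt : ((S \ D).card : ℝ) ≤ (Set.ncard {χ : DirichletCharacter ℂ q | ∀ U : ℝ, L ≤ U →
        c * (L * lenN q N U) ≤ ∫ x in Set.Ioc (loN q N U) (upN q N U), ‖psiC χ x‖ ^ 2 / x ^ 2} : ℝ) := by
    have h1 := Set.ncard_le_ncard hsub (Set.toFinite _)
    rw [Set.ncard_coe_finset] at h1
    exact_mod_cast h1
  have hcard : ((S \ D).card : ℝ) = (S.card : ℝ) - (D.card : ℝ) := by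
    have h1 := Finset.card_sdiff_add_card_eq_card hDS
    have h2 : ((S \ D).card : ℝ) + (D.card : ℝ) = (S.card : ℝ) := by exact_mod_cast h1
    linarith
  have hfin : (1 - r - ε) * (q.totient : ℝ) ≤
      (1 - e) * (q.totient : ℝ) - (q.totient : ℝ) * (r + 15 * e) := by
    have h1 : (1 - e) * (q.totient : ℝ) - (q.totient : ℝ) * (r + 15 * e) -
        (1 - r - ε) * (q.totient : ℝ) = (q.totient : ℝ) * (16 * e) := by
      rw [hedef]
      ring
    have h2 : 0 ≤ (q.totient : ℝ) * (16 * e) := mul_nonneg hφ0 (by linarith)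
    linarith
  linarith

end Pool.Agent.SF
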